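import Pool.Agent.W945.Lc.Stm

/-! Project LC: the main induction. -/

set_option autoImplicit false

noncomputable section

namespace Pool.Agent.W45.Lc.ELIM

open Pool.Agent.W945.Pw Pool.Agent.W945.Lc Finset

theorem one_le_y : 1 ≤ y := by
  unfold y
  norm_num

theorem one_le_ypow (e : ℕ) : 1 ≤ y ^ e := one_le_pow₀ one_le_y

/-- the hypotheses on the blocks -/
def Good {N n : ℕ} (J : Finset (Fin N)) (D : Fin N → DT n) (l : Fin N → ℕ) : Prop :=
  (∀ j ∈ J, 1 ≤ l j ∧ l j ≤ 12 ∧ Inv (D j) (l j)) ∧
  (∀ i ∈ J, ∀ j ∈ J, i ≠ j → Disjoint (D i).vars (D j).vars)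

theorem Good.mono {N n : ℕ} {J J' : Finset (Fin N)} {D : Fin N → DT n} {l : Fin N → ℕ}
    (h : Good J D l) (hJ : J' ⊆ J) : Good J' D l :=
  ⟨fun j hj => h.1 j (hJ hj), fun i hi j hj => h.2 i (hJ hi) j (hJ hj)⟩

/-- the conclusion -/
def Res {N n : ℕ} (F : Fn N) (J : Finset (Fin N)) (D : Fin N → DT n) (E : ℕ) : Prop :=
  ∃ T : DT n, T.Ok ∧ T.vars ⊆ J.biUnion (fun j => (D j).vars) ∧
    (∀ x, T.eval x = F fun j => (D j).eval x) ∧ T.wt (y ^ 200) 1 1 ≤ y ^ (92 * E)

/-- dependence on the variables in `J` -/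
def DepJ {N : ℕ} (J : Finset (Fin N)) (F : Fn N) : Prop :=
  ∀ x x', (∀ j ∈ J, x j = x' j) → F x = F x'

/-- the statement for circuits of size `s` -/
def P (s N n : ℕ) : Prop := ∀ (F : Fn N) (J : Finset (Fin N)) (D : Fin N → DT n) (l : Fin N → ℕ),
  Computes F s → DepJ J F → Good J D l → Res F J D (s + (∑ j ∈ J, (l j - 1)) + 3)

theorem leaf_wt {n : ℕ} (z : ℝ) (b : Bool) : (DT.leaf b : DT n).wt z 1 1 = 1 := by
  cases b <;> simp [DT.wt]

theorem res_const {N n : ℕ} (F : Fn N) (J : Finset (Fin N)) (D : Fin N → DT n) (E : ℕ) (b : Bool)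
    (h : ∀ x, F x = b) : Res F J D E := by
  refine ⟨DT.leaf b, trivial, ?_, fun x => ?_, ?_⟩
  · exact Finset.empty_subset _
  · rw [h]
    rfl
  · rw [leaf_wt]
    exact one_le_ypow _

theorem Res.mono {N n : ℕ} {F : Fn N} {J J' : Finset (Fin N)} {D : Fin N → DT n} {E E' : ℕ}
    (h : Res F J D E) (hE : E ≤ E') (hJ : J ⊆ J') : Res F J' D E' := by
  obtain ⟨T, h1, h2, h3, h4⟩ := h
  refine ⟨T, h1, h2.trans (Finset.biUnion_subset_biUnion_of_subset_left _ hJ), h3, h4.trans ?_⟩
  exact pow_le_pow_right₀ one_le_y (Nat.mul_le_mul_left _ hE)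

theorem sub {s N n : ℕ} (IH : ∀ s' < s, P s' N n) (G : Fn N) (J : Finset (Fin N))
    (D : Fin N → DT n) (l : Fin N → ℕ) (k E : ℕ) (hD : Drop G s k) (hk : 1 ≤ k) (hdep : DepJ J G)
    (hg : Good J D l) (hE : s + (∑ j ∈ J, (l j - 1)) + 3 ≤ E + k) : Res G J D E := by
  rcases hD with ⟨b, hb⟩ | ⟨s', hs', hs⟩
  · exact res_const G J D E b hb
  · exact (IH s' (by omega) G J D l hs' hdep hg).mono (by omega) (Finset.Subset.refl _)

theorem graft_lemma (hG : GRAFT.Stm) {N n : ℕ} (G : Fn N) (i : Fin N) (J' J : Finset (Fin N))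
    (D : Fin N → DT n) (T0 : DT n) (hOk : T0.Ok) (hv0 : T0.vars ⊆ J.biUnion fun j => (D j).vars)
    (hJ : J' ⊆ J) (hdis : ∀ m ∈ J', Disjoint T0.vars (D m).vars) (m0 : ℕ) (e : Bool → ℕ)
    (hres : ∀ c, Res (res G i c) J' D (m0 + e c)) (E0 : ℕ)
    (hw : T0.wt (y ^ 200) (y ^ (92 * e false)) (y ^ (92 * e true)) ≤ y ^ (92 * E0)) :
    ∃ T : DT n, T.Ok ∧ T.vars ⊆ J.biUnion (fun j => (D j).vars) ∧
      (∀ x, T.eval x = G (Function.update (fun j => (D j).eval x) i (T0.eval x))) ∧
      T.wt (y ^ 200) 1 1 ≤ y ^ (92 * (m0 + E0)) := by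
  choose f f1 f2 f3 f4 using hres
  obtain ⟨g1, g2, g3, -, -, -, g7, g8, g9, -⟩ := hG n T0 f
  have hdf : ∀ c, Disjoint T0.vars (f c).vars := by
    intro c
    refine Finset.disjoint_of_subset_right (f2 c) ?_
    rw [Finset.disjoint_biUnion_right]
    exact hdis
  have hy0 : (0 : ℝ) ≤ y ^ 200 := by
    have := one_le_ypow 200
    linarith
  refine ⟨T0.graft f, g3 hOk (f1 false) (f1 true) (hdf false) (hdf true), ?_, fun x => ?_, ?_⟩
  · refine g2.trans (Finset.union_subset hv0 (Finset.union_subset ?_ ?_))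
    · exact (f2 false).trans (Finset.biUnion_subset_biUnion_of_subset_left _ hJ)
    · exact (f2 true).trans (Finset.biUnion_subset_biUnion_of_subset_left _ hJ)
  · rw [g1, f3]
    rfl
  · rw [g7]
    have h1 : ∀ c, (f c).wt (y ^ 200) 1 1 ≤ y ^ (92 * m0) * y ^ (92 * e c) := by
      intro c
      refine (f4 c).trans (le_of_eq ?_)
      rw [← pow_add, ← mul_add]
    refine (g9 (y ^ 200) _ _ (y ^ (92 * m0) * y ^ (92 * e false))
      (y ^ (92 * m0) * y ^ (92 * e true)) hy0 (h1 false) (h1 true)).trans ?_
    rw [g8, mul_add, pow_add]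
    have h2 : (0 : ℝ) ≤ y ^ (92 * m0) := by
      have := one_le_ypow (92 * m0)
      linarith
    exact mul_le_mul_of_nonneg_left hw h2

theorem kap_le (c₁ c₂ c : Bool) : kap c₁ c₂ c ≤ 2 := by
  unfold kap
  split_ifs <;> omega

theorem third (hG : GRAFT.Stm) {s N n : ℕ} (IH : ∀ s' < s, P s' N n) (F : Fn N)
    (J : Finset (Fin N)) (D : Fin N → DT n) (l : Fin N → ℕ) (hdep : DepJ J F) (hg : Good J D l)
    (hW : ∀ (D' : DT n) (l' : ℕ) (c₁ c₂ : Bool), Inv D' l' → 1 ≤ l' → l' ≤ 12 →
      D'.wt (y ^ 200) (y ^ (92 * (2 - kap c₁ c₂ false))) (y ^ (92 * (2 - kap c₁ c₂ true))) ≤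
        y ^ (92 * (l' + 3)))
    (hs : 1 ≤ s) (i : Fin N) (c₁ c₂ : Bool)
    (hD : ∀ c, Drop (res F i c) s (2 + kap c₁ c₂ c)) :
    Res F J D (s + (∑ j ∈ J, (l j - 1)) + 3) := by
  by_cases hi : i ∈ J
  · have hsum : (l i - 1) + ∑ j ∈ J.erase i, (l j - 1) = ∑ j ∈ J, (l j - 1) :=
      Finset.add_sum_erase J (fun j => l j - 1) hi
    obtain ⟨h1, h2, h3⟩ := hg.1 i hi
    have hres : ∀ c, Res (res F i c) (J.erase i) D
        ((s - 1 + ∑ j ∈ J.erase i, (l j - 1)) + (2 - kap c₁ c₂ c)) := by
      intro c
      have hk := kap_le c₁ c₂ c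
      refine sub IH (res F i c) (J.erase i) D l (2 + kap c₁ c₂ c) _ (hD c) (by omega) ?_
        (hg.mono (Finset.erase_subset _ _)) (by omega)
      intro x x' hx
      refine hdep _ _ fun j hj => ?_
      by_cases hji : j = i
      · rw [hji, Function.update_self, Function.update_self]
      · rw [Function.update_of_ne hji, Function.update_of_ne hji]
        exact hx j (Finset.mem_erase.mpr ⟨hji, hj⟩)
    obtain ⟨T, t1, t2, t3, t4⟩ := graft_lemma hG F i (J.erase i) J D (D i) h3.1
      (Finset.subset_biUnion_of_mem (fun j => (D j).vars) hi) (Finset.erase_subset _ _)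
      (fun m hm => hg.2 i hi m (Finset.mem_of_mem_erase hm) (Finset.ne_of_mem_erase hm).symm)
      (s - 1 + ∑ j ∈ J.erase i, (l j - 1)) (fun c => 2 - kap c₁ c₂ c) hres (l i + 3)
      (hW (D i) (l i) c₁ c₂ h3 h1 h2)
    refine ⟨T, t1, t2, fun x => ?_, t4.trans (le_of_eq ?_)⟩
    · rw [t3, Function.update_eq_self]
    · congr 2
      omega
  · have hF : F = res F i false := by
      funext x
      refine hdep _ _ fun j hj => ?_
      have hji : j ≠ i := fun h => hi (h ▸ hj)
      rw [Function.update_of_ne hji]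
    have hD' : Drop F s (2 + kap c₁ c₂ false) := by
      have := hD false
      rwa [← hF] at this
    exact sub IH F J D l (2 + kap c₁ c₂ false) _ hD' (by omega) hdep hg (by omega)

theorem literal (hG : GRAFT.Stm) {N n : ℕ} (s : ℕ) (F : Fn N)
    (J : Finset (Fin N)) (D : Fin N → DT n) (l : Fin N → ℕ) (hdep : DepJ J F) (hg : Good J D l)
    (hW : ∀ (D' : DT n) (l' : ℕ), Inv D' l' → 1 ≤ l' → l' ≤ 12 →
      D'.wt (y ^ 200) 1 1 ≤ y ^ (92 * (l' + 2)))
    (i : Fin N) (b : Bool) (hF : ∀ x, F x = xor (x i) b) :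
    Res F J D (s + (∑ j ∈ J, (l j - 1)) + 3) := by
  have hi : i ∈ J := by
    by_contra hi
    have h1 := hdep (Function.update (fun _ => false) i true)
      (Function.update (fun _ => false) i false) (fun j hj => by
        have hji : j ≠ i := fun h => hi (h ▸ hj)
        rw [Function.update_of_ne hji, Function.update_of_ne hji])
    rw [hF, hF, Function.update_self, Function.update_self] at h1
    cases b <;> simp at h1
  obtain ⟨h1, h2, h3⟩ := hg.1 i hi
  obtain ⟨g1, g2, g3, -, -, -, g7, -⟩ := hG n (D i) (fun c => DT.leaf (xor c b))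
  refine ⟨(D i).graft (fun c => DT.leaf (xor c b)), g3 h3.1 trivial trivial
    (Finset.disjoint_empty_right _) (Finset.disjoint_empty_right _), ?_, fun x => ?_, ?_⟩
  · refine g2.trans (Finset.union_subset
      (Finset.subset_biUnion_of_mem (fun j => (D j).vars) hi) (Finset.union_subset ?_ ?_))
    · exact Finset.empty_subset _
    · exact Finset.empty_subset _
  · rw [g1, hF]
    rfl
  · rw [g7, leaf_wt, leaf_wt]
    refine (hW (D i) (l i) h3 h1 h2).trans ?_
    have hsum : (l i - 1) + ∑ j ∈ J.erase i, (l j - 1) = ∑ j ∈ J, (l j - 1) :=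
      Finset.add_sum_erase J (fun j => l j - 1) hi
    exact pow_le_pow_right₀ one_le_y (Nat.mul_le_mul_left _ (by omega))

theorem fourth (hG : GRAFT.Stm) {s N n : ℕ} (IH : ∀ s' < s, P s' N n) (F : Fn N)
    (J : Finset (Fin N)) (D : Fin N → DT n) (l : Fin N → ℕ) (hdep : DepJ J F) (hg : Good J D l)
    (hC : ∀ (l₁ l₂ : ℕ) (D₁ D₂ : DT n) (α β : Bool), 1 ≤ l₁ → l₁ ≤ 12 → 1 ≤ l₂ → l₂ ≤ 12 →
      Inv D₁ l₁ → Inv D₂ l₂ → Disjoint D₁.vars D₂.vars →
      ∃ D : DT n, Inv D (l₁ + l₂) ∧ D.vars ⊆ D₁.vars ∪ D₂.vars ∧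
        ∀ x, D.eval x = (xor (D₁.eval x) α && xor (D₂.eval x) β))
    (hW : ∀ (D' : DT n) (l' : ℕ) (c₁ : Bool), Inv D' l' → 13 ≤ l' → l' ≤ 24 →
      D'.wt (y ^ 200) (y ^ (92 * (1 - if false = c₁ then 1 else 0)))
        (y ^ (92 * (1 - if true = c₁ then 1 else 0))) ≤ y ^ (92 * (l' + 1)))
    (hs : 1 ≤ s) (i j : Fin N) (α β c₁ : Bool) (F' : Fn N) (hij : i ≠ j)
    (e1 : ∀ x, F x = F' (Function.update x i (xor (x i) α && xor (x j) β)))
    (e2 : ∀ x, F' x = F (Function.update (Function.update x i (xor (x i) α)) j (!β)))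
    (e3 : ∀ x b, F' (Function.update x j b) = F' x) (e4 : Computes F' (s - 1))
    (e5 : ∀ c, Drop (res F' i c) s (2 + if c = c₁ then 1 else 0)) :
    Res F J D (s + (∑ j ∈ J, (l j - 1)) + 3) := by
  by_cases hiJ : i ∈ J
  · by_cases hjJ : j ∈ J
    · -- both in J
      obtain ⟨a1, a2, a3⟩ := hg.1 i hiJ
      obtain ⟨b1, b2, b3⟩ := hg.1 j hjJ
      obtain ⟨D', d1, d2, d3⟩ := hC (l i) (l j) (D i) (D j) α β a1 a2 b1 b2 a3 b3
        (hg.2 i hiJ j hjJ hij)
      have hij' : i ∈ J.erase j := Finset.mem_erase.mpr ⟨hij, hiJ⟩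
      have hsum1 : (l j - 1) + ∑ m ∈ J.erase j, (l m - 1) = ∑ m ∈ J, (l m - 1) :=
        Finset.add_sum_erase J (fun m => l m - 1) hjJ
      have hsum2 : (l i - 1) + ∑ m ∈ (J.erase j).erase i, (l m - 1) =
          ∑ m ∈ J.erase j, (l m - 1) :=
        Finset.add_sum_erase (J.erase j) (fun m => l m - 1) hij'
      have hdep' : DepJ (J.erase j) F' := by
        intro x x' hx
        rw [e2, e2]
        refine hdep _ _ fun m hm => ?_
        by_cases hmj : m = j
        · rw [hmj, Function.update_self, Function.update_self]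
        · rw [Function.update_of_ne hmj, Function.update_of_ne hmj]
          by_cases hmi : m = i
          · rw [hmi, Function.update_self, Function.update_self, hx i hij']
          · rw [Function.update_of_ne hmi, Function.update_of_ne hmi]
            exact hx m (Finset.mem_erase.mpr ⟨hmj, hm⟩)
      have hvD' : D'.vars ⊆ J.biUnion fun j => (D j).vars :=
        d2.trans (Finset.union_subset (Finset.subset_biUnion_of_mem (fun j => (D j).vars) hiJ)
          (Finset.subset_biUnion_of_mem (fun j => (D j).vars) hjJ))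
      have hdisD' : ∀ m ∈ J, m ≠ i → m ≠ j → Disjoint D'.vars (D m).vars := by
        intro m hm hmi hmj
        refine Finset.disjoint_of_subset_left d2 ?_
        rw [Finset.disjoint_union_left]
        exact ⟨hg.2 i hiJ m hm (Ne.symm hmi), hg.2 j hjJ m hm (Ne.symm hmj)⟩
      rcases Nat.lt_or_ge (l i + l j) 13 with hl | hl
      · -- small
        have hgood : Good (J.erase j) (Function.update D i D')
            (Function.update l i (l i + l j)) := by
          constructor
          · intro m hm
            by_cases hmi : m = i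
            · subst hmi
              rw [Function.update_self, Function.update_self]
              exact ⟨by omega, by omega, d1⟩
            · rw [Function.update_of_ne hmi, Function.update_of_ne hmi]
              exact hg.1 m (Finset.mem_of_mem_erase hm)
          · intro m hm m' hm' hne
            by_cases hmi : m = i
            · subst hmi
              rw [Function.update_self, Function.update_of_ne (Ne.symm hne)]
              exact hdisD' m' (Finset.mem_of_mem_erase hm') (Ne.symm hne)
                (Finset.ne_of_mem_erase hm')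
            · rw [Function.update_of_ne hmi]
              by_cases hmi' : m' = i
              · subst hmi'
                rw [Function.update_self]
                exact (hdisD' m (Finset.mem_of_mem_erase hm) hmi
                  (Finset.ne_of_mem_erase hm)).symm
              · rw [Function.update_of_ne hmi']
                exact hg.2 m (Finset.mem_of_mem_erase hm) m' (Finset.mem_of_mem_erase hm') hne
        obtain ⟨T, t1, t2, t3, t4⟩ := IH (s - 1) (by omega) F' (J.erase j)
          (Function.update D i D') (Function.update l i (l i + l j)) e4 hdep' hgood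
        have hsum3 : (l i + l j - 1) + ∑ m ∈ (J.erase j).erase i, (l m - 1) =
            ∑ m ∈ J.erase j, (Function.update l i (l i + l j) m - 1) := by
          rw [← Finset.add_sum_erase (J.erase j)
            (fun m => Function.update l i (l i + l j) m - 1) hij', Function.update_self]
          congr 1
          refine Finset.sum_congr rfl fun m hm => ?_
          rw [Function.update_of_ne (Finset.ne_of_mem_erase hm)]
        refine ⟨T, t1, t2.trans ?_, fun x => ?_, t4.trans (le_of_eq ?_)⟩
        · intro v hv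
          rw [Finset.mem_biUnion] at hv
          obtain ⟨m, hm, hv⟩ := hv
          by_cases hmi : m = i
          · rw [hmi, Function.update_self] at hv
            exact hvD' hv
          · rw [Function.update_of_ne hmi] at hv
            exact Finset.mem_biUnion.mpr ⟨m, Finset.mem_of_mem_erase hm, hv⟩
        · rw [t3, e1]
          congr 1
          funext m
          by_cases hmi : m = i
          · subst hmi
            rw [Function.update_self, Function.update_self, d3]
          · rw [Function.update_of_ne hmi, Function.update_of_ne hmi]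
        · congr 2
          omega
      · -- large
        have hsub : (J.erase j).erase i ⊆ J :=
          (Finset.erase_subset _ _).trans (Finset.erase_subset _ _)
        have hres : ∀ c, Res (res F' i c) ((J.erase j).erase i) D
            ((s + ∑ m ∈ (J.erase j).erase i, (l m - 1)) + (1 - if c = c₁ then 1 else 0)) := by
          intro c
          refine sub IH (res F' i c) ((J.erase j).erase i) D l (2 + if c = c₁ then 1 else 0) _
            (e5 c) (by omega) ?_ (hg.mono hsub) (by split_ifs <;> omega)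
          intro x x' hx
          refine hdep' _ _ fun m hm => ?_
          by_cases hmi : m = i
          · rw [hmi, Function.update_self, Function.update_self]
          · rw [Function.update_of_ne hmi, Function.update_of_ne hmi]
            exact hx m (Finset.mem_erase.mpr ⟨hmi, hm⟩)
        obtain ⟨T, t1, t2, t3, t4⟩ := graft_lemma hG F' i ((J.erase j).erase i) J D D' d1.1
          hvD' hsub (fun m hm => hdisD' m (hsub hm) (Finset.ne_of_mem_erase hm)
            (Finset.ne_of_mem_erase (Finset.mem_of_mem_erase hm)))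
          (s + ∑ m ∈ (J.erase j).erase i, (l m - 1)) (fun c => 1 - if c = c₁ then 1 else 0) hres
          (l i + l j + 1) (hW D' (l i + l j) c₁ d1 hl (by omega))
        refine ⟨T, t1, t2, fun x => ?_, t4.trans (le_of_eq ?_)⟩
        · rw [t3, e1, d3]
        · congr 2
          omega
    · -- j not in J
      have hF : F = res F' i false := by
        funext x
        have h1 : F x = F (Function.update x j β) := by
          refine hdep _ _ fun m hm => ?_
          have hmj : m ≠ j := fun h => hjJ (h ▸ hm)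
          rw [Function.update_of_ne hmj]
        rw [h1, e1, Function.update_self, Bool.xor_self, Bool.and_false,
          Function.update_comm (Ne.symm hij), e3]
        rfl
      have hD' : Drop F s (2 + if false = c₁ then 1 else 0) := by
        have := e5 false
        rwa [← hF] at this
      exact sub IH F J D l _ _ hD' (by omega) hdep hg (by omega)
  · -- i not in J
    have hF : F = res F' i false := by
      funext x
      have h1 : F x = F (Function.update x i α) := by
        refine hdep _ _ fun m hm => ?_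
        have hmi : m ≠ i := fun h => hiJ (h ▸ hm)
        rw [Function.update_of_ne hmi]
      rw [h1, e1, Function.update_self, Bool.xor_self, Bool.false_and, Function.update_idem]
      rfl
    have hD' : Drop F s (2 + if false = c₁ then 1 else 0) := by
      have := e5 false
      rwa [← hF] at this
    exact sub IH F J D l _ _ hD' (by omega) hdep hg (by omega)

theorem main : ELIM.Stm := by
  intro hB hI hDel hM hC2 hC1 hS hTab hG hMgf hComb hWts
  have key : ∀ (N n s : ℕ), P s N n := by
    intro N n s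
    induction s using Nat.strong_induction_on with
    | _ s IH =>
      intro F J D l hF hdep hg
      rcases hS hB hI hDel hM hC2 hC1 N s F hF with ⟨b, hb⟩ | ⟨i, b, hb⟩ |
        ⟨hs, i, c₁, c₂, hD⟩ | ⟨hs, i, j, α, β, c₁, F', hij, e1, e2, e3, e4, e5⟩
      · exact res_const F J D _ b hb
      · exact literal hG s F J D l hdep hg
          (fun D' l' hI' h1 h2 => (hWts hTab hMgf hG n D' l' hI').2.2 h1 h2) i b hb
      · exact third hG IH F J D l hdep hg
          (fun D' l' c₁ c₂ hI' h1 h2 => (hWts hTab hMgf hG n D' l' hI').1 c₁ c₂ h1 h2)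
          hs i c₁ c₂ hD
      · exact fourth hG IH F J D l hdep hg
          (fun l₁ l₂ D₁ D₂ α β => (hComb hTab hG n).2 l₁ l₂ D₁ D₂ α β)
          (fun D' l' c₁ hI' h1 h2 => (hWts hTab hMgf hG n D' l' hI').2.1 c₁ h1 h2)
          hs i j α β c₁ F' hij e1 e2 e3 e4 e5
  intro s N n F J D l hF hdep hg hdis
  exact key N n s F J D l hF hdep ⟨hg, hdis⟩

end Pool.Agent.W45.Lc.ELIM
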